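import Mathlib
import Pool.Agent.W746.NL.Wrap
import Pool.Agent.W746.NL.Rec

set_option autoImplicit false

namespace Pool.Agent.Results.MP_70a088_an.LargeClosestReturns

open MeasureTheory
open scoped ComplexConjugate

/-- The map `z ↦ z ^ n + c`. -/
def f (n : ℕ) (c : ℂ) : ℂ → ℂ := fun z => z ^ n + c

/-- The filled Julia set of `z ^ n + c`: the points with a bounded orbit. -/
def filledJulia (n : ℕ) (c : ℂ) : Set ℂ := {z | ∃ C : ℝ, ∀ k, ‖(f n c)^[k] z‖ ≤ C}

/-- The Julia set of the polynomial `z ^ n + c`: the boundary of the filled Julia set. -/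
def julia (n : ℕ) (c : ℂ) : Set ℂ := frontier (filledJulia n c)

/-- `N ≥ 1` is a time of closest return: the `N`-th iterate of the critical value `c` is closer to
`c` than all the iterates of order `1, …, N - 1`. -/
def ClosestReturn (n : ℕ) (c : ℂ) (N : ℕ) : Prop :=
  1 ≤ N ∧ ∀ i, 1 ≤ i → i < N → ‖(f n c)^[N] c - c‖ < ‖(f n c)^[i] c - c‖

/-- `g^* μ = μ` almost everywhere, where `(g^* μ)(z) = μ (g z) * conj (g' z) / g' z`. -/
def Invariant (g μ : ℂ → ℂ) : Prop :=
  ∀ᵐ z, μ (g z) * (conj (deriv g z) / deriv g z) = μ z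

/-- `μ` is an invariant line field of `g` carried by the set `X`. -/
structure IsInvariantLineField (g μ : ℂ → ℂ) (X : Set ℂ) : Prop where
  measurable : AEMeasurable μ volume
  invariant : Invariant g μ
  norm_eq_one : ∀ z ∈ X, ‖μ z‖ = 1
  eq_zero : ∀ z ∉ X, μ z = 0
  pos : 0 < volume X

/-- No invariant line fields for `z ^ n + c` with a recurrent critical value and large derivatives
at the closest returns; more generally, every bounded measurable invariant Beltrami coefficient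
which vanishes off the Julia set vanishes. -/
theorem result : ∃ K : ℝ, 0 < K ∧ ∀ n : ℕ, 2 ≤ n → ∀ c : ℂ,
    (∀ δ : ℝ, 0 < δ → ∃ k, 1 ≤ k ∧ ‖(f n c)^[k] c - c‖ < δ) →
    (∀ k, ClosestReturn n c k → K ≤ ‖deriv (f n c)^[k] c‖) →
    (∀ (μ : ℂ → ℂ) (B : ℝ), AEMeasurable μ volume → (∀ᵐ z, ‖μ z‖ ≤ B) →
      (∀ᵐ z, z ∉ julia n c → μ z = 0) → Invariant (f n c) μ → ∀ᵐ z, μ z = 0) ∧
    ¬ ∃ (μ : ℂ → ℂ) (X : Set ℂ), IsInvariantLineField (f n c) μ X ∧ X ⊆ julia n c := by
  obtain ⟨C0, c0, R, M, L, Q, Kd, W, -⟩ := Pool.Agent.W746.LD.exists_consts 0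
  refine ⟨Kd, W.Kpos, ?_⟩
  intro n hn c hrec hlarge
  have hP : ∀ k, deriv (f n c)^[k] c = Pool.Agent.W746.LD.P n c c k := fun k =>
    (Pool.Agent.W746.LD.hasDerivAt_orb c k).deriv
  have hd : ∀ z, deriv (f n c) z = (n : ℂ) * z ^ (n - 1) := fun z =>
    ((hasDerivAt_pow n z).add_const c).deriv
  have hcM := Pool.Agent.W746.NL.mem_of_rec hn hrec
  have hu := Pool.Agent.W746.NL.unbounded W hn hcM hrec (fun k hk => by
    rw [← hP]; exact hlarge k hk)
  have hb := Pool.Agent.W746.LD.mem_multibrot_orb hn hcM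
  have key : ∀ (μ : ℂ → ℂ) (B : ℝ), AEMeasurable μ volume → (∀ᵐ z, ‖μ z‖ ≤ B) →
      (∀ᵐ z, z ∉ julia n c → μ z = 0) → Invariant (f n c) μ → ∀ᵐ z, μ z = 0 := by
    intro μ B hm hB hJ hi
    refine Pool.Agent.W746.NL.vanish_ae hn hb hu.1 hu.2 hm hB hJ ?_
    show ∀ᵐ z : ℂ, _
    filter_upwards [hi] with z hz
    rw [hd] at hz
    exact hz
  refine ⟨key, ?_⟩
  rintro ⟨μ, X, h, hX⟩
  have h1 := key μ 1 h.measurable (Filter.Eventually.of_forall fun z => ?_)
    (Filter.Eventually.of_forall fun z hz => h.eq_zero z fun hzX => hz (hX hzX)) h.invariant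
  · have h2 : volume X = 0 := by
      refine measure_mono_null ?_ (ae_iff.1 h1)
      intro z hz h0
      have h3 := h.norm_eq_one z hz
      rw [h0, norm_zero] at h3
      exact zero_ne_one h3
    exact h.pos.ne' h2
  · by_cases hz : z ∈ X
    · exact (h.norm_eq_one z hz).le
    · rw [h.eq_zero z hz, norm_zero]; exact zero_le_one

end Pool.Agent.Results.MP_70a088_an.LargeClosestReturns
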